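import Pool.Agent.K1H73.SQB.Stm
import Pool.Agent.TH464.PO.Comb

/-! Joint binomial moments give the joint law (helper68, for helper73, project SQB). -/

set_option autoImplicit false

open Finset

namespace Pool.Agent.K1H68.SQB

open Pool.Agent.K1H73.SQB Pool.Agent.TH464.PO

theorem prod_close {ι : Type} (s : Finset ι) (a b r : ι → ℝ) (ha : ∀ i ∈ s, |a i| ≤ 1)
    (hab : ∀ i ∈ s, |a i - b i| ≤ r i) :
    |∏ i ∈ s, a i| ≤ 1 ∧ |∏ i ∈ s, b i| ≤ ∏ i ∈ s, (1 + r i) ∧
      |∏ i ∈ s, a i - ∏ i ∈ s, b i| ≤ ∏ i ∈ s, (1 + r i) - 1 := by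
  classical
  induction s using Finset.induction_on with
  | empty => simp
  | insert i s hi ih =>
    obtain ⟨h1, h2, h3⟩ := ih (fun j hj => ha j (mem_insert_of_mem hj))
      (fun j hj => hab j (mem_insert_of_mem hj))
    have h4 := ha i (mem_insert_self i s)
    have h5 := hab i (mem_insert_self i s)
    have hr : 0 ≤ r i := (abs_nonneg _).trans h5
    have h6 : |b i| ≤ 1 + r i := by
      have e : b i = a i - (a i - b i) := by ring
      rw [e]
      exact (abs_sub _ _).trans (add_le_add h4 h5)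
    rw [prod_insert hi, prod_insert hi, prod_insert hi]
    refine ⟨?_, ?_, ?_⟩
    · rw [abs_mul]
      exact mul_le_one₀ h4 (abs_nonneg _) h1
    · rw [abs_mul]
      exact mul_le_mul h6 h2 (abs_nonneg _) (by linarith)
    · have e : a i * ∏ j ∈ s, a j - b i * ∏ j ∈ s, b j =
          a i * (∏ j ∈ s, a j - ∏ j ∈ s, b j) + (a i - b i) * ∏ j ∈ s, b j := by ring
      rw [e]
      refine (abs_add_le _ _).trans ?_
      rw [abs_mul, abs_mul]
      have h7 : |a i| * |∏ j ∈ s, a j - ∏ j ∈ s, b j| ≤ ∏ j ∈ s, (1 + r j) - 1 := by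
        calc |a i| * |∏ j ∈ s, a j - ∏ j ∈ s, b j| ≤ 1 * |∏ j ∈ s, a j - ∏ j ∈ s, b j| :=
              mul_le_mul_of_nonneg_right h4 (abs_nonneg _)
          _ ≤ _ := by rw [one_mul]; exact h3
      have h8 : |a i - b i| * |∏ j ∈ s, b j| ≤ r i * ∏ j ∈ s, (1 + r j) :=
        mul_le_mul h5 h2 (abs_nonneg _) hr
      linarith

/-- moments of products of linear combinations of binomial coefficients -/
theorem lin {k : ℕ} (Om : Finset ℕ) (N : ℕ → Fin k → ℕ) (x : Fin k → ℝ) (η : ℝ) (R : ℕ)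
    (h : ∀ κ : Fin k → ℕ, (∀ i, κ i ≤ R) →
      |∑ n ∈ Om, ∏ i, ((N n i).choose (κ i) : ℝ) - Om.card * Pool.Agent.K1H73.SQB.mt κ x| ≤ η * Om.card)
    (s : Fin k → Finset ℕ) (α : Fin k → ℕ → ℝ) (σ : Fin k → ℕ → ℕ)
    (hσ : ∀ i, ∀ t ∈ s i, σ i t ≤ R) :
    |∑ n ∈ Om, ∏ i, ∑ t ∈ s i, α i t * ((N n i).choose (σ i t) : ℝ) -
      Om.card * ∏ i, ∑ t ∈ s i, α i t * (x i ^ σ i t / ((σ i t).factorial : ℝ))| ≤
      η * Om.card * ∏ i, ∑ t ∈ s i, |α i t| := by
  classical
  simp only [Finset.prod_univ_sum]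
  rw [Finset.sum_comm, Finset.mul_sum, ← Finset.sum_sub_distrib, Finset.mul_sum]
  refine (Finset.abs_sum_le_sum_abs _ _).trans (Finset.sum_le_sum fun κ hκ => ?_)
  rw [Fintype.mem_piFinset] at hκ
  have h1 := h (fun i => σ i (κ i)) (fun i => hσ i _ (hκ i))
  have e : ∑ n ∈ Om, ∏ i, (α i (κ i) * ((N n i).choose (σ i (κ i)) : ℝ)) -
      Om.card * ∏ i, (α i (κ i) * (x i ^ σ i (κ i) / ((σ i (κ i)).factorial : ℝ))) =
      (∏ i, α i (κ i)) * (∑ n ∈ Om, ∏ i, ((N n i).choose (σ i (κ i)) : ℝ) -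
        Om.card * Pool.Agent.K1H73.SQB.mt (fun i => σ i (κ i)) x) := by
    unfold Pool.Agent.K1H73.SQB.mt
    simp only [Finset.prod_mul_distrib]
    rw [← Finset.mul_sum]
    ring
  rw [e, abs_mul, Finset.abs_prod, mul_comm (∏ i, |α i (κ i)|)]
  exact mul_le_mul_of_nonneg_right h1 (Finset.prod_nonneg fun _ _ => abs_nonneg _)

/-- one value -/
theorem one {k : ℕ} (Om : Finset ℕ) (N : ℕ → Fin k → ℕ) (x : Fin k → ℝ) (hx : ∀ i, 0 ≤ x i)
    (η : ℝ) (R : ℕ)
    (h : ∀ κ : Fin k → ℕ, (∀ i, κ i ≤ R) →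
      |∑ n ∈ Om, ∏ i, ((N n i).choose (κ i) : ℝ) - Om.card * Pool.Agent.K1H73.SQB.mt κ x| ≤ η * Om.card)
    (c : Fin k → ℕ) (m : ℕ) (hm : ∀ i, m + 1 + c i ≤ R) (δ : ℝ)
    (hδ : ∀ i, ((m + 1 + c i).choose (c i) : ℝ) * (x i ^ (m + 1 + c i) /
      ((m + 1 + c i).factorial : ℝ)) * Real.exp (x i) ≤ δ) :
    |((Om.filter (fun n => N n = c)).card : ℝ) -
      Om.card * ∏ i, Real.exp (-(x i)) * x i ^ c i / ((c i).factorial : ℝ)| ≤
    (2 * ((1 + δ) ^ k - 1) + η * (∏ i, (1 + ((m + 1 + c i).choose (c i) : ℝ)) +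
      ∏ i, ∑ t ∈ range (m + 1), ((t + c i).choose (c i) : ℝ))) * Om.card := by
  classical
  have hcard : (0 : ℝ) ≤ Om.card := Nat.cast_nonneg _
  obtain ⟨ρ, hρ⟩ : ∃ ρ : Fin k → ℝ, ρ = fun i => ((m + 1 + c i).choose (c i) : ℝ) *
    (x i ^ (m + 1 + c i) / ((m + 1 + c i).factorial : ℝ)) := ⟨_, rfl⟩
  have hρ0 : ∀ i, 0 ≤ ρ i := fun i => by
    have := hx i
    rw [hρ]; positivity
  have hρd : ∀ i, ρ i * Real.exp (x i) ≤ δ := fun i => by rw [hρ]; exact hδ i
  have hρd' : ∀ i, ρ i ≤ δ := fun i => by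
    refine le_trans ?_ (hρd i)
    exact le_mul_of_one_le_right (hρ0 i) (Real.one_le_exp (hx i))
  -- the count
  have e1 : ((Om.filter (fun n => N n = c)).card : ℝ) =
      ∑ n ∈ Om, ∏ i, (if N n i = c i then (1 : ℝ) else 0) := by
    rw [Finset.card_filter]
    push_cast
    refine Finset.sum_congr rfl fun n _ => ?_
    by_cases hn : N n = c
    · rw [if_pos hn]
      symm
      exact Finset.prod_eq_one fun i _ => by rw [if_pos (congrFun hn i)]
    · rw [if_neg hn]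
      obtain ⟨i, hi⟩ := Function.ne_iff.1 hn
      exact (Finset.prod_eq_zero (mem_univ i) (if_neg hi)).symm
  obtain ⟨Sn, hSn⟩ : ∃ S : ℝ, S = ∑ n ∈ Om, ∏ i, ∑ t ∈ range (m + 1),
    ((-1) ^ t * ((t + c i).choose (c i) : ℝ)) * ((N n i).choose (t + c i) : ℝ) := ⟨_, rfl⟩
  obtain ⟨Rn, hRn⟩ : ∃ S : ℝ, S = ∑ n ∈ Om, ∏ i, (1 + ((m + 1 + c i).choose (c i) : ℝ) *
    ((N n i).choose (m + 1 + c i) : ℝ)) := ⟨_, rfl⟩
  have e2 : |∑ n ∈ Om, ∏ i, (if N n i = c i then (1 : ℝ) else 0) - Sn| ≤ Rn - Om.card := by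
    rw [hSn, hRn, ← Finset.sum_sub_distrib]
    have e : (Om.card : ℝ) = ∑ n ∈ Om, (1 : ℝ) := by simp
    rw [e, ← Finset.sum_sub_distrib]
    refine (Finset.abs_sum_le_sum_abs _ _).trans (Finset.sum_le_sum fun n _ => ?_)
    refine (prod_close univ (fun i => if N n i = c i then (1 : ℝ) else 0)
      (fun i => ∑ t ∈ range (m + 1), ((-1) ^ t * ((t + c i).choose (c i) : ℝ)) *
        ((N n i).choose (t + c i) : ℝ))
      (fun i => ((m + 1 + c i).choose (c i) : ℝ) * ((N n i).choose (m + 1 + c i) : ℝ))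
      (fun i _ => ?_) (fun i _ => ?_)).2.2
    · split_ifs <;> simp
    · have := bonf_eq (N n i) (c i) m
      simpa only [mul_assoc] using this
  -- the upper bound of the error terms
  have e3 : Rn ≤ Om.card * ∏ i, (1 + ρ i) + η * Om.card *
      ∏ i, (1 + ((m + 1 + c i).choose (c i) : ℝ)) := by
    have h1 := lin Om N x η R h (fun _ => range 2)
      (fun i t => if t = 0 then 1 else ((m + 1 + c i).choose (c i) : ℝ))
      (fun i t => if t = 0 then 0 else m + 1 + c i) (fun i t _ => by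
        split_ifs
        · exact Nat.zero_le _
        · exact hm i)
    simp only [Finset.sum_range_succ, Finset.sum_range_zero, zero_add, if_true, one_ne_zero,
      if_false, Nat.choose_zero_right, Nat.cast_one, mul_one, pow_zero, Nat.factorial_zero,
      div_one, abs_one, Nat.abs_cast] at h1
    have h2 := (abs_le.1 h1).2
    rw [hRn, hρ]
    linarith
  have e4 : |Sn - Om.card * ∏ i, ∑ t ∈ range (m + 1), (-1) ^ t * (((t + c i).choose (c i) : ℝ) *
      (x i ^ (t + c i) / ((t + c i).factorial : ℝ)))| ≤ η * Om.card *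
      ∏ i, ∑ t ∈ range (m + 1), ((t + c i).choose (c i) : ℝ) := by
    have h1 := lin Om N x η R h (fun _ => range (m + 1))
      (fun i t => (-1) ^ t * ((t + c i).choose (c i) : ℝ))
      (fun i t => t + c i) (fun i t ht => by
        rw [mem_range] at ht
        have := hm i
        omega)
    have h2 : ∀ i t, |(-1 : ℝ) ^ t * ((t + c i).choose (c i) : ℝ)| = ((t + c i).choose (c i) : ℝ) := by
      intro i t
      rw [abs_mul, abs_pow, abs_neg, abs_one, one_pow, one_mul, Nat.abs_cast]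
    simp only [h2, mul_assoc] at h1
    rw [hSn]
    simpa only [mul_assoc] using h1
  have hle : ∀ r : Fin k → ℝ, (∀ i, 0 ≤ r i) → (∀ i, r i ≤ δ) → ∏ i, (1 + r i) ≤ (1 + δ) ^ k := by
    intro r h0 h1
    calc ∏ i, (1 + r i) ≤ ∏ _i : Fin k, (1 + δ) :=
          Finset.prod_le_prod (fun i _ => by have := h0 i; linarith) (fun i _ => by
            have := h1 i; linarith)
      _ = (1 + δ) ^ k := by simp
  have e5 := (prod_close univ (fun i => Real.exp (-(x i)) * x i ^ c i / ((c i).factorial : ℝ))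
    (fun i => ∑ t ∈ range (m + 1), (-1) ^ t * (((t + c i).choose (c i) : ℝ) *
      (x i ^ (t + c i) / ((t + c i).factorial : ℝ)))) (fun i => ρ i * Real.exp (x i))
    (fun i _ => by
      have h1 := poisson_tail (x i) (hx i) 0 {c i} (fun j _ => Nat.zero_le _)
      rw [Finset.sum_singleton, pow_zero, Nat.factorial_zero, Nat.cast_one, div_one] at h1
      have h2 : 0 ≤ Real.exp (-(x i)) * x i ^ c i / ((c i).factorial : ℝ) := by
        have := hx i
        positivity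
      rw [abs_of_nonneg h2]
      exact h1)
    (fun i _ => by rw [hρ]; exact bonf_poisson (x i) (hx i) (c i) m)).2.2
  have e6 := hle (fun i => ρ i * Real.exp (x i)) (fun i => mul_nonneg (hρ0 i) (Real.exp_pos _).le) hρd
  have e7 := hle ρ hρ0 hρd'
  have e8 := mul_le_mul_of_nonneg_left (e5.trans (sub_le_sub_right e6 1)) hcard
  rw [← abs_of_nonneg hcard, ← abs_mul, abs_of_nonneg hcard, mul_sub] at e8
  have e9 := mul_le_mul_of_nonneg_left e7 hcard
  rw [e1]
  obtain ⟨a1, a2⟩ := abs_le.1 e2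
  obtain ⟨b1, b2⟩ := abs_le.1 e4
  obtain ⟨c1, c2⟩ := abs_le.1 e8
  rw [abs_le]
  constructor <;> nlinarith

theorem pow_close (k : ℕ) (δ : ℝ) (h0 : 0 ≤ δ) (h1 : δ ≤ 1) : (1 + δ) ^ k - 1 ≤ δ * 2 ^ k := by
  have h : (1 + δ) ^ k ≤ 1 + δ * (2 ^ k - 1) := by
    induction k with
    | zero => simp
    | succ k ih =>
      have h2 : (1 : ℝ) ≤ 2 ^ k := one_le_pow₀ (by norm_num)
      calc (1 + δ) ^ (k + 1) = (1 + δ) ^ k * (1 + δ) := pow_succ _ _
        _ ≤ (1 + δ * (2 ^ k - 1)) * (1 + δ) := mul_le_mul_of_nonneg_right ih (by linarith)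
        _ = 1 + δ * 2 ^ k + δ * (δ * (2 ^ k - 1)) := by ring
        _ ≤ 1 + δ * 2 ^ k + δ * (1 * (2 ^ k - 1)) := by
            have : 0 ≤ (2 : ℝ) ^ k - 1 := by linarith
            gcongr
        _ = _ := by rw [pow_succ]; ring
  linarith

/-- the tail of the product of Poisson laws -/
theorem ptail {k : ℕ} (x : Fin k → ℝ) (hx : ∀ i, 0 ≤ x i) (i0 : Fin k) (J : ℕ)
    (B : Finset (Fin k → ℕ)) (hB : ∀ c ∈ B, J ≤ c i0) :
    ∑ c ∈ B, ∏ i, Real.exp (-(x i)) * x i ^ c i / ((c i).factorial : ℝ) ≤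
      x i0 ^ J / (J.factorial : ℝ) := by
  classical
  obtain ⟨M, hM⟩ : ∃ M : ℕ, ∀ c ∈ B, ∀ i, c i < M := by
    refine ⟨∑ c ∈ B, ∑ i, c i + 1, fun c hc i => ?_⟩
    have h1 : c i ≤ ∑ i, c i := Finset.single_le_sum (f := fun i => c i) (fun _ _ => Nat.zero_le _)
      (mem_univ i)
    have h2 : ∑ i, c i ≤ ∑ c ∈ B, ∑ i, c i := Finset.single_le_sum (f := fun c : Fin k → ℕ => ∑ i, c i)
      (fun _ _ => Nat.zero_le _) hc
    omega
  obtain ⟨s, hs⟩ : ∃ s : Fin k → Finset ℕ, s = fun i => if i = i0 then (range M).filter (J ≤ ·)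
    else range M := ⟨_, rfl⟩
  have hsub : B ⊆ Fintype.piFinset s := by
    intro c hc
    rw [Fintype.mem_piFinset]
    intro i
    rw [hs]
    simp only
    split_ifs with hi
    · rw [mem_filter, mem_range, hi]
      exact ⟨hM c hc i0, hB c hc⟩
    · rw [mem_range]
      exact hM c hc i
  have hnn : ∀ i t, 0 ≤ Real.exp (-(x i)) * x i ^ t / (t.factorial : ℝ) := fun i t => by
    have := hx i
    positivity
  refine (Finset.sum_le_sum_of_subset_of_nonneg hsub
    (fun c _ _ => Finset.prod_nonneg fun i _ => hnn i _)).trans ?_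
  rw [← Finset.prod_univ_sum s (fun i t => Real.exp (-(x i)) * x i ^ t / (t.factorial : ℝ)),
    ← Finset.mul_prod_erase univ _ (mem_univ i0)]
  have h1 : ∑ t ∈ s i0, Real.exp (-(x i0)) * x i0 ^ t / (t.factorial : ℝ) ≤
      x i0 ^ J / (J.factorial : ℝ) := by
    refine poisson_tail (x i0) (hx i0) J (s i0) (fun t ht => ?_)
    rw [hs] at ht
    simp only [if_true, mem_filter] at ht
    exact ht.2
  have h2 : ∏ i ∈ univ.erase i0, ∑ t ∈ s i, Real.exp (-(x i)) * x i ^ t / (t.factorial : ℝ) ≤ 1 := by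
    refine Finset.prod_le_one (fun i _ => Finset.sum_nonneg fun t _ => hnn i t) (fun i _ => ?_)
    have := poisson_tail (x i) (hx i) 0 (s i) (fun t _ => Nat.zero_le _)
    simpa using this
  have h3 : 0 ≤ x i0 ^ J / (J.factorial : ℝ) := by
    have := hx i0
    positivity
  calc _ ≤ x i0 ^ J / (J.factorial : ℝ) * 1 :=
        mul_le_mul h1 h2 (Finset.prod_nonneg fun i _ => Finset.sum_nonneg fun t _ => hnn i t) h3
    _ = _ := mul_one _

theorem union_bound {ι β : Type} (A : Finset β) (s : Finset ι) (p : ι → β → Prop)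
    [∀ i, DecidablePred (p i)] (f : β → ℝ) (hf : ∀ b, 0 ≤ f b) (hA : ∀ b ∈ A, ∃ i ∈ s, p i b) :
    ∑ b ∈ A, f b ≤ ∑ i ∈ s, ∑ b ∈ A.filter (p i), f b := by
  simp only [Finset.sum_filter]
  rw [Finset.sum_comm]
  refine Finset.sum_le_sum fun b hb => ?_
  obtain ⟨i, hi, hp⟩ := hA b hb
  calc f b = (if p i b then f b else 0) := by rw [if_pos hp]
    _ ≤ _ := Finset.single_le_sum (f := fun i => if p i b then f b else 0)
        (fun j _ => by split_ifs <;> [exact hf b; exact le_rfl]) hi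

/-- few large values -/
theorem large {k : ℕ} (Om : Finset ℕ) (N : ℕ → Fin k → ℕ) (x : Fin k → ℝ) (x0 η ε' : ℝ) (R J : ℕ)
    (hR : 1 ≤ R) (hxx : ∀ i, x i ≤ x0) (hη1 : η ≤ 1)
    (h : ∀ κ : Fin k → ℕ, (∀ i, κ i ≤ R) →
      |∑ n ∈ Om, ∏ i, ((N n i).choose (κ i) : ℝ) - Om.card * Pool.Agent.K1H73.SQB.mt κ x| ≤
        η * Om.card)
    (hJ0 : 1 ≤ J) (hJr2 : k * (x0 + 1) ≤ J * ε') (A2 : Finset (Fin k → ℕ))
    (hA2 : ∀ c ∈ A2, ∃ i, J ≤ c i) :
    ((Om.filter (fun n => N n ∈ A2)).card : ℝ) ≤ ε' * Om.card := by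
  classical
  have hcard : (0 : ℝ) ≤ Om.card := Nat.cast_nonneg _
  have hJr : (0 : ℝ) < J := by exact_mod_cast hJ0
  have h1 : ((Om.filter (fun n => N n ∈ A2)).card : ℝ) ≤
      ∑ i : Fin k, ((Om.filter (fun n => J ≤ N n i)).card : ℝ) := by
    have : (Om.filter (fun n => N n ∈ A2)).card ≤
        ∑ i : Fin k, (Om.filter (fun n => J ≤ N n i)).card := by
      refine le_trans (card_le_card ?_) (card_biUnion_le (s := univ)
        (t := fun i : Fin k => Om.filter (fun n => J ≤ N n i)))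
      intro n hn
      rw [mem_filter] at hn
      obtain ⟨i, hi⟩ := hA2 _ hn.2
      rw [mem_biUnion]
      exact ⟨i, mem_univ i, mem_filter.2 ⟨hn.1, hi⟩⟩
    exact_mod_cast this
  refine h1.trans ?_
  have h2 : ∀ i : Fin k, ((Om.filter (fun n => J ≤ N n i)).card : ℝ) * J ≤ (x0 + 1) * Om.card := by
    intro i
    refine markov Om (fun n => N n i) J _ ?_
    have h3 := (abs_le.1 (h (fun j => if j = i then 1 else 0) (fun j => by
      split_ifs <;> omega))).2
    have e3 : ∀ n, ∏ j, ((N n j).choose (if j = i then 1 else 0) : ℝ) = (N n i : ℝ) := by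
      intro n
      rw [Finset.prod_eq_single i]
      · simp
      · intro j _ hj
        rw [if_neg hj]
        simp
      · intro hh
        exact absurd (mem_univ i) hh
    have e4 : Pool.Agent.K1H73.SQB.mt (fun j => if j = i then 1 else 0) x = x i := by
      unfold Pool.Agent.K1H73.SQB.mt
      rw [Finset.prod_eq_single i]
      · simp
      · intro j _ hj
        simp [hj]
      · intro hh
        exact absurd (mem_univ i) hh
    simp only [e3, e4] at h3
    have := hxx i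
    nlinarith
  have h5 : (∑ i : Fin k, ((Om.filter (fun n => J ≤ N n i)).card : ℝ)) * J ≤
      (ε' * Om.card) * J := by
    rw [Finset.sum_mul]
    refine (Finset.sum_le_sum fun i _ => h2 i).trans ?_
    rw [Finset.sum_const, card_univ, Fintype.card_fin, nsmul_eq_mul]
    calc (k : ℝ) * ((x0 + 1) * Om.card) = (k * (x0 + 1)) * Om.card := by ring
      _ ≤ (J * ε') * Om.card := by gcongr
      _ = _ := by ring
  exact le_of_mul_le_mul_right h5 hJr

/-- the same for the product of Poisson laws -/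
theorem large2 {k : ℕ} (x : Fin k → ℝ) (x0 : ℝ) (J : ℕ) (hx : ∀ i, 0 ≤ x i)
    (hxx : ∀ i, x i ≤ x0) (A2 : Finset (Fin k → ℕ)) (hA2 : ∀ c ∈ A2, ∃ i, J ≤ c i) :
    ∑ c ∈ A2, ∏ i, Real.exp (-(x i)) * x i ^ c i / ((c i).factorial : ℝ) ≤
      k * (x0 ^ J / (J.factorial : ℝ)) := by
  classical
  obtain ⟨P, hP⟩ : ∃ P : (Fin k → ℕ) → ℝ, P = fun c => ∏ i, Real.exp (-(x i)) * x i ^ c i /
    ((c i).factorial : ℝ) := ⟨_, rfl⟩
  have hP0 : ∀ c, 0 ≤ P c := fun c => by
    rw [hP]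
    exact Finset.prod_nonneg fun i _ => by have := hx i; positivity
  have h1 : ∑ c ∈ A2, P c ≤ ∑ i : Fin k, ∑ c ∈ A2.filter (fun c => J ≤ c i), P c :=
    union_bound A2 univ (fun (i : Fin k) (c : Fin k → ℕ) => J ≤ c i) P hP0 (fun c hc => by
      obtain ⟨i, hi⟩ := hA2 c hc
      exact ⟨i, mem_univ i, hi⟩)
  rw [hP] at h1
  refine h1.trans ?_
  have h3 : ∀ i : Fin k, ∑ c ∈ A2.filter (fun c => J ≤ c i), ∏ i, Real.exp (-(x i)) *
      x i ^ c i / ((c i).factorial : ℝ) ≤ x0 ^ J / (J.factorial : ℝ) := by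
    intro i
    refine (ptail x hx i J (A2.filter (fun c => J ≤ c i)) (fun c hc => (mem_filter.1 hc).2)).trans ?_
    have := pow_le_pow_left₀ (hx i) (hxx i) J
    gcongr
  refine (Finset.sum_le_sum fun i _ => h3 i).trans ?_
  rw [Finset.sum_const, card_univ, Fintype.card_fin, nsmul_eq_mul]

theorem t_JL : S_JL := by
  classical
  intro k x0 ε hx0 hε
  have hk0 : (0 : ℝ) ≤ k := Nat.cast_nonneg k
  obtain ⟨J1, hJ1⟩ := exists_small x0 k (ε / 4) (by positivity)
  obtain ⟨J2, hJ2⟩ : ∃ J : ℕ, k * (x0 + 1) / (ε / 4) ≤ J := exists_nat_ge _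
  obtain ⟨J, hJ⟩ : ∃ J : ℕ, J = max (max J1 J2) 1 := ⟨_, rfl⟩
  have hJJ1 : J1 ≤ J := by omega
  have hJJ2 : J2 ≤ J := by omega
  have hJ0 : 1 ≤ J := by omega
  have hJr : (0 : ℝ) < J := by exact_mod_cast hJ0
  have hJr2 : k * (x0 + 1) / (ε / 4) ≤ J := hJ2.trans (by exact_mod_cast hJJ2)
  obtain ⟨δ, hδ⟩ : ∃ δ : ℝ, δ = min 1 (ε / (8 * 2 ^ k * (J : ℝ) ^ k)) := ⟨_, rfl⟩
  have hδ0 : 0 < δ := by rw [hδ]; positivity
  have hδ1 : δ ≤ 1 := by rw [hδ]; exact min_le_left _ _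
  have hδ2 : (J : ℝ) ^ k * (2 * ((1 + δ) ^ k - 1)) ≤ ε / 4 := by
    have h1 := pow_close k δ hδ0.le hδ1
    have h2 : δ ≤ ε / (8 * 2 ^ k * (J : ℝ) ^ k) := by rw [hδ]; exact min_le_right _ _
    rw [le_div_iff₀ (by positivity)] at h2
    calc (J : ℝ) ^ k * (2 * ((1 + δ) ^ k - 1)) ≤ (J : ℝ) ^ k * (2 * (δ * 2 ^ k)) := by gcongr
      _ = (δ * (8 * 2 ^ k * (J : ℝ) ^ k)) / 4 := by ring
      _ ≤ ε / 4 := by linarith
  obtain ⟨y, hy⟩ : ∃ y : ℝ, y = max x0 1 := ⟨_, rfl⟩
  have hy1 : 1 ≤ y := by rw [hy]; exact le_max_right _ _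
  have hyx : x0 ≤ y := by rw [hy]; exact le_max_left _ _
  obtain ⟨m, hm⟩ := exists_small y (y ^ J * Real.exp x0) δ hδ0
  have hm' := hm (m + 1) (by omega)
  obtain ⟨D, hD⟩ : ∃ D : (Fin k → ℕ) → ℝ, D = fun c => ∏ i, (1 + ((m + 1 + c i).choose (c i) : ℝ)) +
      ∏ i, ∑ t ∈ range (m + 1), ((t + c i).choose (c i) : ℝ) := ⟨_, rfl⟩
  have hD0 : ∀ c, 0 ≤ D c := fun c => by
    rw [hD]
    refine add_nonneg (Finset.prod_nonneg fun i _ => ?_) (Finset.prod_nonneg fun i _ =>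
      Finset.sum_nonneg fun t _ => Nat.cast_nonneg _)
    positivity
  obtain ⟨Cs, hCs⟩ : ∃ C : ℝ, C = ∑ c ∈ Fintype.piFinset (fun _ : Fin k => range J), D c := ⟨_, rfl⟩
  have hCs0 : 0 ≤ Cs := by rw [hCs]; exact Finset.sum_nonneg fun c _ => hD0 c
  obtain ⟨η, hη⟩ : ∃ η : ℝ, η = min 1 (ε / (4 * (Cs + 1))) := ⟨_, rfl⟩
  have hη0 : 0 < η := by rw [hη]; positivity
  have hη1 : η ≤ 1 := by rw [hη]; exact min_le_left _ _
  have hη2 : η * Cs ≤ ε / 4 := by
    have : η ≤ ε / (4 * (Cs + 1)) := by rw [hη]; exact min_le_right _ _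
    rw [le_div_iff₀ (by positivity)] at this
    nlinarith
  refine ⟨m + 1 + J, η, hη0, ?_⟩
  intro Om N x hx hxx h A
  have hcard : (0 : ℝ) ≤ Om.card := Nat.cast_nonneg _
  obtain ⟨P, hP⟩ : ∃ P : (Fin k → ℕ) → ℝ, P = fun c => ∏ i, Real.exp (-(x i)) * x i ^ c i /
    ((c i).factorial : ℝ) := ⟨_, rfl⟩
  have hP0 : ∀ c, 0 ≤ P c := fun c => by
    rw [hP]
    exact Finset.prod_nonneg fun i _ => by have := hx i; positivity
  obtain ⟨A1, hA1⟩ : ∃ A1, A1 = A.filter (fun c => ∀ i, c i < J) := ⟨_, rfl⟩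
  obtain ⟨A2, hA2⟩ : ∃ A2, A2 = A.filter (fun c => ¬ ∀ i, c i < J) := ⟨_, rfl⟩
  have hA1sub : A1 ⊆ Fintype.piFinset (fun _ : Fin k => range J) := by
    intro c hc
    rw [hA1, mem_filter] at hc
    rw [Fintype.mem_piFinset]
    exact fun i => mem_range.2 (hc.2 i)
  have hone : ∀ c ∈ A1, |((Om.filter (fun n => N n = c)).card : ℝ) - Om.card * P c| ≤
      (2 * ((1 + δ) ^ k - 1) + η * D c) * Om.card := by
    intro c hc
    have hcJ : ∀ i, c i < J := fun i => by
      have := Fintype.mem_piFinset.1 (hA1sub hc) i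
      exact mem_range.1 this
    rw [hP, hD]
    refine one Om N x hx η (m + 1 + J) h c m (fun i => by have := hcJ i; omega) δ (fun i => ?_)
    refine le_trans ?_ hm'
    have h3 := Nat.add_choose_mul_factorial_mul_factorial (m + 1) (c i)
    have h3' : ((m + 1 + c i).choose (c i) : ℝ) * (m + 1).factorial * (c i).factorial =
      (m + 1 + c i).factorial := by exact_mod_cast h3
    have h4 : ((m + 1 + c i).choose (c i) : ℝ) ≠ 0 := by
      have : 0 < (m + 1 + c i).choose (c i) := Nat.choose_pos (by omega)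
      positivity
    have h5 : ((m + 1 + c i).choose (c i) : ℝ) * (x i ^ (m + 1 + c i) / (m + 1 + c i).factorial) =
        x i ^ (m + 1 + c i) / ((m + 1).factorial * (c i).factorial) := by
      rw [← h3']
      field_simp
    rw [h5]
    have hcJi := hcJ i
    have h6 : x i ^ (m + 1 + c i) / ((m + 1).factorial * (c i).factorial) ≤
        y ^ (m + 1 + J) / (m + 1).factorial := by
      have hf1 : (1 : ℝ) ≤ (c i).factorial := by exact_mod_cast Nat.factorial_pos (c i)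
      have hf2 : (0 : ℝ) < (m + 1).factorial := by exact_mod_cast Nat.factorial_pos (m + 1)
      apply div_le_div₀ (by positivity) _ hf2 (by nlinarith)
      calc x i ^ (m + 1 + c i) ≤ y ^ (m + 1 + c i) := pow_le_pow_left₀ (hx i) ((hxx i).trans hyx) _
        _ ≤ y ^ (m + 1 + J) := pow_le_pow_right₀ hy1 (by omega)
    calc x i ^ (m + 1 + c i) / ((m + 1).factorial * (c i).factorial) * Real.exp (x i) ≤
        y ^ (m + 1 + J) / (m + 1).factorial * Real.exp x0 := by
          apply mul_le_mul h6 (Real.exp_le_exp.2 (hxx i)) (Real.exp_pos _).le (by positivity)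
      _ = _ := by
        rw [pow_add]
        ring
  have hsmall : |((Om.filter (fun n => N n ∈ A1)).card : ℝ) - Om.card * ∑ c ∈ A1, P c| ≤
      (ε / 2) * Om.card := by
    have e1 : ((Om.filter (fun n => N n ∈ A1)).card : ℝ) =
        ∑ c ∈ A1, ((Om.filter (fun n => N n = c)).card : ℝ) := by
      have : (Om.filter (fun n => N n ∈ A1)).card = ∑ c ∈ A1, (Om.filter (fun n => N n = c)).card := by
        rw [Finset.card_eq_sum_card_fiberwise (f := N) (t := A1)]
        · apply Finset.sum_congr rfl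
          intro j hj
          congr 1
          ext n
          rw [mem_filter, mem_filter, mem_filter]
          constructor
          · rintro ⟨⟨a1, _⟩, a3⟩
            exact ⟨a1, a3⟩
          · rintro ⟨a1, a3⟩
            exact ⟨⟨a1, by rw [a3]; exact hj⟩, a3⟩
        · intro n hn
          rw [Finset.mem_coe, mem_filter] at hn
          exact hn.2
      rw [this]
      push_cast
      rfl
    rw [e1, Finset.mul_sum, ← Finset.sum_sub_distrib]
    refine (Finset.abs_sum_le_sum_abs _ _).trans ((Finset.sum_le_sum hone).trans ?_)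
    rw [← Finset.sum_mul, Finset.sum_add_distrib, Finset.sum_const, nsmul_eq_mul, ← Finset.mul_sum]
    apply mul_le_mul_of_nonneg_right _ hcard
    have h2 : (A1.card : ℝ) ≤ (J : ℝ) ^ k := by
      have := card_le_card hA1sub
      rw [Fintype.card_piFinset] at this
      simp only [card_range, Finset.prod_const, card_univ, Fintype.card_fin] at this
      exact_mod_cast this
    have h3 : ∑ c ∈ A1, D c ≤ Cs := by
      rw [hCs]
      exact Finset.sum_le_sum_of_subset_of_nonneg hA1sub (fun c _ _ => hD0 c)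
    have h6 : 0 ≤ 2 * ((1 + δ) ^ k - 1) := by
      have : (1 : ℝ) ≤ (1 + δ) ^ k := one_le_pow₀ (by linarith)
      linarith
    have h4 := mul_le_mul_of_nonneg_right h2 h6
    have h5 := mul_le_mul_of_nonneg_left h3 hη0.le
    linarith
  have hA2' : ∀ c ∈ A2, ∃ i, J ≤ c i := by
    intro c hc
    rw [hA2, mem_filter] at hc
    obtain ⟨i, hi⟩ := not_forall.1 hc.2
    exact ⟨i, not_lt.1 hi⟩
  rw [div_le_iff₀ (by positivity)] at hJr2
  have hlarge : ((Om.filter (fun n => N n ∈ A2)).card : ℝ) ≤ ε / 4 * Om.card :=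
    large Om N x x0 η (ε / 4) (m + 1 + J) J (by omega) hxx hη1 h hJ0 hJr2 A2 hA2'
  have hlarge2 : ∑ c ∈ A2, P c ≤ ε / 4 := by
    rw [hP]
    exact (large2 x x0 J hx hxx A2 hA2').trans (hJ1 J hJJ1)
  have hlarge20 : 0 ≤ ∑ c ∈ A2, P c := Finset.sum_nonneg fun c _ => hP0 c
  have hsplit1 : ((Om.filter (fun n => N n ∈ A)).card : ℝ) =
      ((Om.filter (fun n => N n ∈ A1)).card : ℝ) + ((Om.filter (fun n => N n ∈ A2)).card : ℝ) := by
    have : (Om.filter (fun n => N n ∈ A)).card =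
      (Om.filter (fun n => N n ∈ A1)).card + (Om.filter (fun n => N n ∈ A2)).card := by
      rw [← card_union_of_disjoint]
      · congr 1
        ext n
        rw [mem_union, mem_filter, mem_filter, mem_filter, hA1, hA2, mem_filter, mem_filter]
        tauto
      · rw [Finset.disjoint_left]
        intro n hn hn'
        rw [mem_filter, hA1, mem_filter] at hn
        rw [mem_filter, hA2, mem_filter] at hn'
        exact hn'.2.2 hn.2.2
    exact_mod_cast this
  have hsplit2 : ∑ c ∈ A, P c = ∑ c ∈ A1, P c + ∑ c ∈ A2, P c := by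
    rw [hA1, hA2]
    exact (Finset.sum_filter_add_sum_filter_not _ _ _).symm
  have hfin : |((Om.filter (fun n => N n ∈ A)).card : ℝ) - Om.card * ∑ c ∈ A, P c| ≤
      ε * Om.card := by
    rw [hsplit1, hsplit2, abs_le]
    obtain ⟨a1, a2⟩ := abs_le.1 hsmall
    have hl0 : (0 : ℝ) ≤ ((Om.filter (fun n => N n ∈ A2)).card : ℝ) := Nat.cast_nonneg _
    have h9 := mul_le_mul_of_nonneg_left hlarge2 hcard
    have h10 := mul_nonneg hcard hlarge20
    constructor <;> nlinarith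
  rw [hP] at hfin
  convert hfin using 4

end Pool.Agent.K1H68.SQB

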